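import Mathlib

set_option autoImplicit false

namespace Pool.EH

open SimpleGraph

section

variable (N : ℕ → ℕ) (B : ∀ i, SimpleGraph (Fin (N i))) (L : ℕ)

/-- Sequences of length at most `L` with entries in the vertex sets of the graphs `B i`. -/
abbrev VV : Type := Σ a : Fin (L + 1), (∀ i : Fin a.1, Fin (N i.1))

/-- Two sequences are adjacent when their lengths differ and all common entries are adjacent. -/
def GG : SimpleGraph (VV N L) where
  Adj u v := u.1 ≠ v.1 ∧ ∀ (i : ℕ) (hi : i < u.1.1) (hj : i < v.1.1),
    (B i).Adj (u.2 ⟨i, hi⟩) (v.2 ⟨i, hj⟩)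
  symm := ⟨by
    rintro u v ⟨h1, h2⟩
    exact ⟨h1.symm, fun i hi hj => (h2 i hj hi).symm⟩⟩
  loopless := ⟨by
    rintro u ⟨h1, -⟩
    exact h1 rfl⟩

/-- Truncation of an infinite sequence. -/
def mk (b : ℕ) (hb : b ≤ L) (x : ∀ i : ℕ, Fin (N i)) : VV N L :=
  ⟨⟨b, Nat.lt_succ_of_le hb⟩, fun i => x i.1⟩

theorem mk_congr (b : ℕ) (hb : b ≤ L) (x y : ∀ i : ℕ, Fin (N i)) (h : ∀ i < b, x i = y i) :
    mk N L b hb x = mk N L b hb y := by
  unfold mk
  have : (fun i : Fin b => x i.1) = (fun i : Fin b => y i.1) := by
    funext i
    exact h i.1 i.2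
  exact congrArg (fun t => (⟨⟨b, Nat.lt_succ_of_le hb⟩, t⟩ : VV N L)) this

theorem GG_mk (a b : ℕ) (ha : a ≤ L) (hb : b ≤ L) (x y : ∀ i : ℕ, Fin (N i)) (hab : a ≠ b)
    (h : ∀ i, i < a → i < b → (B i).Adj (x i) (y i)) :
    (GG N B L).Adj (mk N L a ha x) (mk N L b hb y) := by
  refine ⟨?_, ?_⟩
  · intro h
    apply hab
    have := congrArg Fin.val h
    exact this
  · intro i hi hj
    exact h i hi hj

theorem exists_pairs (k : ℕ) (φ : VV N L → Fin k) (hN : ∀ a, Nonempty (Fin (N a)))
    (hB : ∀ a, a < L → ¬ (B a).Colorable
      (Fintype.card ((∀ i : Fin a, Fin (N i.1)) × Fin (L + 1) → Fin k))) (d : ℕ) (hd : d ≤ L) :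
    ∃ y y' : ∀ i : ℕ, Fin (N i), ∀ a, L - d ≤ a → a < L → (B a).Adj (y a) (y' a) ∧
      ∀ (b : ℕ) (hb : b ≤ L), a < b → ∀ x : ∀ i : ℕ, Fin (N i),
        (∀ j, a < j → j < b → x j = y j) →
        φ (mk N L b hb (Function.update x a (y a))) =
          φ (mk N L b hb (Function.update x a (y' a))) := by
  classical
  induction d with
  | zero =>
    refine ⟨fun i => (hN i).some, fun i => (hN i).some, ?_⟩
    intro a h1 h2
    omega
  | succ d ih =>
    obtain ⟨y, y', hy⟩ := ih (by omega)
    set a0 := L - d - 1 with ha0
    have ha0L : a0 < L := by omega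
    let F : Fin (N a0) → ((∀ i : Fin a0, Fin (N i.1)) × Fin (L + 1) → Fin k) := fun t q =>
      φ (mk N L q.2.1 (Nat.le_of_lt_succ q.2.2)
        (Function.update (fun i => if h : i < a0 then q.1 ⟨i, h⟩ else y i) a0 t))
    have hex : ∃ t t' : Fin (N a0), (B a0).Adj t t' ∧ F t = F t' := by
      by_contra hcon
      push Not at hcon
      apply hB a0 ha0L
      exact (Coloring.mk F (fun {t t'} h => hcon t t' h)).colorable
    obtain ⟨t, t', htt, hF⟩ := hex
    refine ⟨Function.update y a0 t, Function.update y' a0 t', ?_⟩
    intro a h1 h2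
    rcases Nat.eq_or_lt_of_le (show a0 ≤ a by omega) with h | h
    · subst h
      rw [Function.update_self, Function.update_self]
      refine ⟨htt, ?_⟩
      intro b hb hab x hx
      have h3 := congrFun hF (fun i => x i.1, ⟨b, Nat.lt_succ_of_le hb⟩)
      simp only [F] at h3
      have h4 : ∀ s : Fin (N a0), mk N L b hb (Function.update x a0 s) =
          mk N L b hb (Function.update (fun i => if h : i < a0 then x i else y i) a0 s) := by
        intro s
        apply mk_congr
        intro i hi
        rcases lt_trichotomy i a0 with h | h | h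
        · rw [Function.update_of_ne h.ne, Function.update_of_ne h.ne, dif_pos h]
        · subst h
          rw [Function.update_self, Function.update_self]
        · rw [Function.update_of_ne h.ne', Function.update_of_ne h.ne', dif_neg (by omega)]
          have := hx i h hi
          rw [Function.update_of_ne h.ne'] at this
          exact this
      rw [h4, h4]
      exact h3
    · rw [Function.update_of_ne h.ne', Function.update_of_ne h.ne']
      have h3 := hy a (by omega) h2
      refine ⟨h3.1, ?_⟩
      intro b hb hab x hx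
      apply h3.2 b hb hab x
      intro j hj1 hj2
      have := hx j hj1 hj2
      rw [Function.update_of_ne (by omega)] at this
      exact this

theorem not_colorable (hN : ∀ a, Nonempty (Fin (N a)))
    (hB : ∀ a, a < L → ¬ (B a).Colorable
      (Fintype.card ((∀ i : Fin a, Fin (N i.1)) × Fin (L + 1) → Fin L))) :
    ¬ (GG N B L).Colorable L := by
  classical
  rintro ⟨φ⟩
  obtain ⟨y, y', hy⟩ := exists_pairs N B L L φ hN hB L le_rfl
  have hy' : ∀ a, a < L → (B a).Adj (y a) (y' a) ∧
      ∀ (b : ℕ) (hb : b ≤ L), a < b → ∀ x : ∀ i : ℕ, Fin (N i),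
        (∀ j, a < j → j < b → x j = y j) →
        φ (mk N L b hb (Function.update x a (y a))) =
          φ (mk N L b hb (Function.update x a (y' a))) := fun a ha => hy a (by omega) ha
  have key : ∀ (b : ℕ) (hb : b ≤ L) (a : ℕ), a ≤ b →
      φ (mk N L b hb (fun i => if i < a then y' i else y i)) = φ (mk N L b hb y) := by
    intro b hb a
    induction a with
    | zero =>
      intro _
      congr 1
    | succ a ih =>
      intro hab
      rw [← ih (by omega)]
      have h1 := (hy' a (by omega)).2 b hb (by omega) (fun i => if i < a then y' i else y i) (by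
        intro j hj _
        exact if_neg (by omega))
      have h2 : mk N L b hb (Function.update (fun i => if i < a then y' i else y i) a (y a)) =
          mk N L b hb (fun i => if i < a then y' i else y i) := by
        apply mk_congr
        intro i _
        by_cases h : i = a
        · subst h
          rw [Function.update_self, if_neg (lt_irrefl _)]
        · rw [Function.update_of_ne h]
      have h3 : mk N L b hb (Function.update (fun i => if i < a then y' i else y i) a (y' a)) =
          mk N L b hb (fun i => if i < a + 1 then y' i else y i) := by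
        apply mk_congr
        intro i _
        by_cases h : i = a
        · subst h
          rw [Function.update_self, if_pos (Nat.lt_succ_self _)]
        · rw [Function.update_of_ne h]
          by_cases h' : i < a
          · rw [if_pos h', if_pos (by omega)]
          · rw [if_neg h', if_neg (by omega)]
      rw [← h3, ← h1, h2]
  have hne : ∀ (a b : ℕ) (ha : a ≤ L) (hb : b ≤ L), a < b →
      φ (mk N L a ha y) ≠ φ (mk N L b hb y) := by
    intro a b ha hb hab
    rw [← key b hb a hab.le]
    apply φ.valid
    apply GG_mk N B L a b ha hb _ _ hab.ne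
    intro i hi _
    rw [if_pos hi]
    exact (hy' i (by omega)).1
  have hinj : Function.Injective
      (fun a : Fin (L + 1) => φ (mk N L a.1 (Nat.le_of_lt_succ a.2) y)) := by
    intro a b hab
    by_contra hcon
    rcases lt_or_gt_of_ne hcon with h | h
    · exact hne a.1 b.1 (Nat.le_of_lt_succ a.2) (Nat.le_of_lt_succ b.2) h hab
    · exact hne b.1 a.1 (Nat.le_of_lt_succ b.2) (Nat.le_of_lt_succ a.2) h hab.symm
  have := Fintype.card_le_of_injective _ hinj
  simp at this

end

end Pool.EH
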