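import Mathlib

set_option autoImplicit false

namespace Pool.EH

open SimpleGraph

/-- Shift graph: increasing (r+1)-tuples of elements of `Fin n`, adjacent when one is the shift of
the other. -/
def Sh (r n : ℕ) : SimpleGraph (Fin (r + 1) → Fin n) where
  Adj x y := ∃ z : Fin (r + 2) → Fin n, StrictMono z ∧
    ((x = (fun i => z i.castSucc) ∧ y = (fun i => z i.succ)) ∨
     (y = (fun i => z i.castSucc) ∧ x = (fun i => z i.succ)))
  symm := ⟨by
    rintro x y ⟨z, hz, h⟩
    exact ⟨z, hz, h.symm⟩⟩
  loopless := ⟨by
    rintro x ⟨z, hz, h⟩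
    have h1 : z (Fin.castSucc (0 : Fin (r + 1))) = z (Fin.succ (0 : Fin (r + 1))) := by
      rcases h with ⟨h1, h2⟩ | ⟨h1, h2⟩
      · exact congrFun (h1.symm.trans h2) 0
      · exact congrFun (h1.symm.trans h2) 0
    have h2 := hz (Fin.castSucc_lt_succ (i := (0 : Fin (r + 1))))
    rw [h1] at h2
    exact lt_irrefl _ h2⟩

theorem Sh_not_colorable (r : ℕ) : ∀ m : ℕ, ∃ n : ℕ, ¬ (Sh r n).Colorable m := by
  classical
  induction r with
  | zero =>
    intro m
    refine ⟨m + 1, ?_⟩
    rintro ⟨C⟩
    have key : ∀ j j' : Fin (m + 1), j < j' → C (fun _ => j) ≠ C (fun _ => j') := by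
      intro j j' hjj
      apply C.valid
      refine ⟨![j, j'], ?_, Or.inl ⟨?_, ?_⟩⟩
      · intro a b hab
        fin_cases a <;> fin_cases b <;> simp_all
      · funext i
        fin_cases i
        rfl
      · funext i
        fin_cases i
        rfl
    have hinj : Function.Injective (fun j : Fin (m + 1) => C (fun _ => j)) := by
      intro j j' hjj
      by_contra hne
      rcases lt_or_gt_of_ne hne with h | h
      · exact key j j' h hjj
      · exact key j' j h hjj.symm
    have := Fintype.card_le_of_injective _ hinj
    simp at this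
  | succ r ih =>
    intro m
    obtain ⟨n, hn⟩ := ih (2 ^ m)
    refine ⟨n, ?_⟩
    rintro ⟨C⟩
    apply hn
    let D : (Fin (r + 1) → Fin n) → Finset (Fin m) := fun u =>
      Finset.univ.filter (fun c => ∃ w : Fin (r + 2) → Fin n, StrictMono w ∧
        (fun i : Fin (r + 1) => w i.castSucc) = u ∧ C w = c)
    have hD : ∀ z : Fin (r + 2) → Fin n, StrictMono z →
        D (fun i => z i.castSucc) ≠ D (fun i => z i.succ) := by
      intro z hz heq
      have h1 : C z ∈ D (fun i => z i.castSucc) := by
        simp only [D, Finset.mem_filter, Finset.mem_univ, true_and]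
        exact ⟨z, hz, rfl, rfl⟩
      rw [heq] at h1
      simp only [D, Finset.mem_filter, Finset.mem_univ, true_and] at h1
      obtain ⟨w, hw, hwz, hC⟩ := h1
      have hadj : (Sh (r + 1) n).Adj z w := by
        refine ⟨Fin.cons (z 0) w, ?_, Or.inl ⟨?_, ?_⟩⟩
        · rw [Fin.strictMono_iff_lt_succ]
          intro i
          refine Fin.cases ?_ (fun j => ?_) i
          · have h0 : w 0 = z 1 := by
              have := congrFun hwz 0
              simpa using this
            simp only [Fin.castSucc_zero, Fin.cons_zero, Fin.cons_succ]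
            rw [h0]
            apply hz
            exact Fin.zero_lt_one
          · have : (Fin.castSucc (Fin.succ j)) = Fin.succ (Fin.castSucc j) := rfl
            rw [this]
            simp only [Fin.cons_succ]
            apply hw
            exact Fin.castSucc_lt_succ
        · funext i
          refine Fin.cases ?_ (fun j => ?_) i
          · simp
          · have : (Fin.castSucc (Fin.succ j)) = Fin.succ (Fin.castSucc j) := rfl
            rw [this]
            simp only [Fin.cons_succ]
            exact (congrFun hwz j).symm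
        · funext i
          simp only [Fin.cons_succ]
      exact C.valid hadj hC.symm
    have hcol : (Sh r n).Coloring (Finset (Fin m)) := by
      refine Coloring.mk D ?_
      rintro x y ⟨z, hz, h⟩
      rcases h with ⟨rfl, rfl⟩ | ⟨rfl, rfl⟩
      · exact hD z hz
      · exact (hD z hz).symm
    have := hcol.colorable
    simpa using this

theorem Sh_walk {r n : ℕ} {x y : Fin (r + 1) → Fin n} (w : (Sh r n).Walk x y) :
    ∃ h : ℤ, |h| ≤ w.length ∧ (h - w.length) % 2 = 0 ∧
      ∀ i j : Fin (r + 1), w.length ≤ (i : ℕ) → (i : ℕ) + w.length ≤ r → ((j : ℕ) : ℤ) = i + h →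
        y i = x j := by
  induction w with
  | nil =>
    refine ⟨0, by simp, by simp, ?_⟩
    intro i j _ _ hj
    have : j = i := by
      apply Fin.ext
      have : ((j : ℕ) : ℤ) = ((i : ℕ) : ℤ) := by simpa using hj
      exact_mod_cast this
    rw [this]
  | @cons u v t huv p ih =>
    obtain ⟨h, hle, hpar, hal⟩ := ih
    obtain ⟨z, hz, hcase⟩ := huv
    have hlen : ((Walk.cons (show (Sh r n).Adj u v from ⟨z, hz, hcase⟩) p).length : ℤ) =
        (p.length : ℤ) + 1 := by
      simp
    rcases hcase with ⟨hu, hv⟩ | ⟨hv, hu⟩
    · -- v j = u (j+1)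
      refine ⟨h + 1, ?_, ?_, ?_⟩
      · rw [hlen]
        rw [abs_le] at hle ⊢
        constructor <;> linarith [hle.1, hle.2]
      · rw [hlen]
        have : (h + 1 - ((p.length : ℤ) + 1)) = h - p.length := by ring
        rw [this]; exact hpar
      · intro i j h1 h2 hj
        simp only [Walk.length_cons] at h1 h2
        have hj0 : 1 ≤ (j : ℕ) := by
          rw [abs_le] at hle
          omega
        have hjlt : (j : ℕ) - 1 < r + 1 := by omega
        have hy : t i = v ⟨(j : ℕ) - 1, hjlt⟩ := by
          apply hal
          · omega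
          · omega
          · push_cast
            omega
        rw [hy, hv, hu]
        simp only
        congr 1
        apply Fin.ext
        simp
        omega
    · refine ⟨h - 1, ?_, ?_, ?_⟩
      · rw [hlen]
        rw [abs_le] at hle ⊢
        constructor <;> linarith [hle.1, hle.2]
      · rw [hlen]
        have : (h - 1 - ((p.length : ℤ) + 1)) = (h - p.length) - 2 := by ring
        rw [this]; omega
      · intro i j h1 h2 hj
        simp only [Walk.length_cons] at h1 h2
        have hjlt : (j : ℕ) + 1 < r + 1 := by
          rw [abs_le] at hle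
          omega
        have hy : t i = v ⟨(j : ℕ) + 1, hjlt⟩ := by
          apply hal
          · omega
          · omega
          · push_cast
            omega
        rw [hy, hv, hu]
        simp only
        congr 1

theorem Sh_no_odd {r n : ℕ} {x : Fin (r + 1) → Fin n} (w : (Sh r n).Walk x x)
    (hodd : Odd w.length) (hlen : 2 * w.length ≤ r) : False := by
  have hx : StrictMono x := by
    cases w with
    | nil => simp at hodd
    | cons h p =>
      obtain ⟨z, hz, hcase⟩ := h
      rcases hcase with ⟨hu, -⟩ | ⟨-, hu⟩
      · rw [hu]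
        intro a b hab
        exact hz (by simpa using hab)
      · rw [hu]
        intro a b hab
        exact hz (by simpa using hab)
  obtain ⟨h, hle, hpar, hal⟩ := Sh_walk w
  obtain ⟨t, ht⟩ := hodd
  rw [abs_le] at hle
  have hi : w.length < r + 1 := by omega
  have hj : (((w.length : ℤ) + h).toNat) < r + 1 := by omega
  have := hal ⟨w.length, hi⟩ ⟨((w.length : ℤ) + h).toNat, hj⟩ (by simp) (by simp; omega)
    (by simp; omega)
  have := hx.injective this
  rw [Fin.mk.injEq] at this
  omega

/-- A finite graph with at most `s` vertices and without short odd closed walks is bipartite. -/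
theorem two_colorable_of_no_odd {α : Type*} [Fintype α] {G : SimpleGraph α} (s : ℕ)
    (hs : Fintype.card α ≤ s)
    (h : ∀ (u : α) (w : G.Walk u u), Odd w.length → w.length ≤ 2 * s → False) :
    G.Colorable 2 := by
  classical
  apply colorable_iff_forall_connectedComponent.2
  intro c
  obtain ⟨_, hv⟩ := c.nonempty_supp
  have hp : ∀ a, ∃ p : c.toSimpleGraph.Walk ⟨_, hv⟩ a, p.length < s := by
    intro a
    obtain ⟨p, hp⟩ := (c.connected_toSimpleGraph ⟨_, hv⟩ a).exists_isPath
    refine ⟨p, ?_⟩
    have h1 := hp.length_lt
    have h2 : Fintype.card c ≤ Fintype.card α := Fintype.card_subtype_le _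
    omega
  choose p hp using hp
  use fun a ↦ Fin.ofNat 2 (p a).length
  intro a b hab he
  apply h _ ((((p a).concat hab).append (p b).reverse).map c.toSimpleGraph_hom)
  · rw [Walk.length_map, Walk.length_append, Walk.length_concat, Walk.length_reverse]
    have : (p a).length % 2 = (p b).length % 2 := by
      simp_rw [← Fin.val_natCast, ← Fin.ofNat_eq_cast, he]
    rw [Nat.odd_iff]
    omega
  · rw [Walk.length_map, Walk.length_append, Walk.length_concat, Walk.length_reverse]
    have h1 := hp a
    have h2 := hp b
    omega

/-- Graphs of large chromatic number all whose small vertex sets are bipartite. -/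
theorem exists_local (M s : ℕ) : ∃ (N : ℕ) (B : SimpleGraph (Fin N)), ¬ B.Colorable M ∧
    ∀ S : Finset (Fin N), S.card ≤ s → ∃ c : Fin N → Bool, ∀ x ∈ S, ∀ y ∈ S,
      B.Adj x y → c x ≠ c y := by
  classical
  obtain ⟨n, hn⟩ := Sh_not_colorable (4 * s) M
  let e : (Fin (4 * s + 1) → Fin n) ≃ Fin (Fintype.card (Fin (4 * s + 1) → Fin n)) :=
    Fintype.equivFin _
  let B : SimpleGraph (Fin (Fintype.card (Fin (4 * s + 1) → Fin n))) :=
    (Sh (4 * s) n).comap e.symm
  have hB : ∀ x y, B.Adj x y ↔ (Sh (4 * s) n).Adj (e.symm x) (e.symm y) := fun x y => Iff.rfl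
  refine ⟨_, B, ?_, ?_⟩
  · rintro ⟨C⟩
    apply hn
    refine ⟨Coloring.mk (fun x => C (e x)) ?_⟩
    intro x y hxy
    apply C.valid
    rw [hB]
    simpa using hxy
  · intro S hS
    let T : Set (Fin (4 * s + 1) → Fin n) := {x | e x ∈ S}
    have hcard : Fintype.card T ≤ s := by
      refine le_trans ?_ hS
      rw [← Fintype.card_coe]
      exact Fintype.card_le_of_injective (fun x : T => (⟨e x.1, x.2⟩ : S)) (by
        intro a b hab
        simp only [Subtype.mk.injEq] at hab
        exact Subtype.ext (e.injective hab))
    have h2 : ((Sh (4 * s) n).induce T).Colorable 2 := by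
      apply two_colorable_of_no_odd s hcard
      intro u w hodd hlen
      let w' := w.map (SimpleGraph.Embedding.induce (G := Sh (4 * s) n) T).toHom
      have hw' : w'.length = w.length := Walk.length_map _ _
      apply Sh_no_odd w'
      · rw [hw']; exact hodd
      · rw [hw']
        omega
    obtain ⟨C⟩ := h2
    refine ⟨fun x => if h : e.symm x ∈ T then decide (C ⟨e.symm x, h⟩ = 0) else false, ?_⟩
    intro x hx y hy hxy
    have hx' : e.symm x ∈ T := by simpa [T] using hx
    have hy' : e.symm y ∈ T := by simpa [T] using hy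
    simp only [hx', hy', dif_pos]
    have hne : C ⟨e.symm x, hx'⟩ ≠ C ⟨e.symm y, hy'⟩ := by
      apply C.valid
      exact hxy
    intro heq
    apply hne
    rw [decide_eq_decide] at heq
    generalize C ⟨e.symm x, hx'⟩ = a at *
    generalize C ⟨e.symm y, hy'⟩ = b at *
    fin_cases a <;> fin_cases b <;> simp_all

end Pool.EH
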