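import Mathlib

set_option autoImplicit false

namespace Pool.EH

open SimpleGraph

variable {V : Type*} [Fintype V]

open Classical in
/-- The closed sets: level 0, then add the next level and all vertices with two neighbours in the
previous set. -/
noncomputable def CC (H : SimpleGraph V) (lev : V → ℕ) : ℕ → Finset V
  | 0 => Finset.univ.filter (fun v => lev v = 0)
  | (a + 1) => Finset.univ.filter (fun v => v ∈ CC H lev a ∨ lev v = a + 1 ∨
      ∃ x ∈ CC H lev a, ∃ y ∈ CC H lev a, x ≠ y ∧ H.Adj v x ∧ H.Adj v y)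

theorem mem_CC_zero (H : SimpleGraph V) (lev : V → ℕ) (v : V) :
    v ∈ CC H lev 0 ↔ lev v = 0 := by
  simp [CC]

theorem mem_CC_succ (H : SimpleGraph V) (lev : V → ℕ) (a : ℕ) (v : V) :
    v ∈ CC H lev (a + 1) ↔ v ∈ CC H lev a ∨ lev v = a + 1 ∨
      ∃ x ∈ CC H lev a, ∃ y ∈ CC H lev a, x ≠ y ∧ H.Adj v x ∧ H.Adj v y := by
  rw [CC]
  simp

theorem CC_mono (H : SimpleGraph V) (lev : V → ℕ) {a b : ℕ} (hab : a ≤ b) :
    CC H lev a ⊆ CC H lev b := by
  induction b, hab using Nat.le_induction with
  | base => exact fun _ h => h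
  | succ b _ ih =>
    intro v hv
    rw [mem_CC_succ]
    exact Or.inl (ih hv)

theorem mem_CC_lev (H : SimpleGraph V) (lev : V → ℕ) (v : V) : v ∈ CC H lev (lev v) := by
  rcases h : lev v with _ | a
  · rw [mem_CC_zero]; exact h
  · rw [mem_CC_succ]; exact Or.inr (Or.inl h)

open Classical in
/-- The generation of a vertex. -/
noncomputable def gen (H : SimpleGraph V) (lev : V → ℕ) (v : V) : ℕ :=
  Nat.find (p := fun a => v ∈ CC H lev a) ⟨lev v, mem_CC_lev H lev v⟩

theorem mem_CC_iff (H : SimpleGraph V) (lev : V → ℕ) (v : V) (a : ℕ) :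
    v ∈ CC H lev a ↔ gen H lev v ≤ a := by
  classical
  constructor
  · intro h
    exact Nat.find_le h
  · intro h
    have h1 : v ∈ CC H lev (gen H lev v) :=
      Nat.find_spec (p := fun a => v ∈ CC H lev a) ⟨lev v, mem_CC_lev H lev v⟩
    exact CC_mono H lev h h1

theorem gen_le_lev (H : SimpleGraph V) (lev : V → ℕ) (v : V) : gen H lev v ≤ lev v :=
  (mem_CC_iff H lev v _).1 (mem_CC_lev H lev v)

theorem gen_unique (H : SimpleGraph V) (lev : V → ℕ) {v u u' : V}
    (h : H.Adj v u) (h' : H.Adj v u') (hg : gen H lev u + 2 ≤ gen H lev v)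
    (hg' : gen H lev u' + 2 ≤ gen H lev v) : u = u' := by
  by_contra hne
  obtain ⟨t, ht⟩ : ∃ t, gen H lev v = t + 2 := ⟨gen H lev v - 2, by omega⟩
  have : v ∈ CC H lev (t + 1) := by
    rw [mem_CC_succ]
    refine Or.inr (Or.inr ⟨u, ?_, u', ?_, hne, h, h'⟩)
    · rw [mem_CC_iff]; omega
    · rw [mem_CC_iff]; omega
  rw [mem_CC_iff] at this
  omega

open Classical in
/-- New vertices with two neighbours in the previous set. -/
noncomputable def WW (H : SimpleGraph V) (lev : V → ℕ) (a : ℕ) : Finset V :=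
  Finset.univ.filter (fun v => v ∉ CC H lev a ∧
      ∃ x ∈ CC H lev a, ∃ y ∈ CC H lev a, x ≠ y ∧ H.Adj v x ∧ H.Adj v y)

theorem card_WW (H : SimpleGraph V) (lev : V → ℕ) (a : ℕ)
    (hC4 : ∀ u v x y, u ≠ v → x ≠ y → H.Adj u x → H.Adj u y → H.Adj v x → H.Adj v y → False) :
    (WW H lev a).card ≤ (CC H lev a).card ^ 2 := by
  classical
  have h1 : ∀ v : V, ∃ p : V × V, v ∈ WW H lev a →
      (p.1 ∈ CC H lev a ∧ p.2 ∈ CC H lev a ∧ p.1 ≠ p.2 ∧ H.Adj v p.1 ∧ H.Adj v p.2) := by
    intro v
    by_cases hv : v ∈ WW H lev a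
    · simp only [WW, Finset.mem_filter, Finset.mem_univ, true_and] at hv
      obtain ⟨-, x, hx, y, hy, hne, h1, h2⟩ := hv
      exact ⟨(x, y), fun _ => ⟨hx, hy, hne, h1, h2⟩⟩
    · exact ⟨(v, v), fun h => absurd h hv⟩
  choose p hp using h1
  have h2 : (WW H lev a).card ≤ (CC H lev a ×ˢ CC H lev a).card := by
    apply Finset.card_le_card_of_injOn p
    · intro v hv
      have := hp v hv
      simp only [Finset.coe_product, Set.mem_prod, Finset.mem_coe]
      exact ⟨this.1, this.2.1⟩
    · intro v hv v' hv' heq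
      by_contra hne
      have h1 := hp v hv
      have h2 := hp v' hv'
      rw [← heq] at h2
      exact hC4 v v' (p v).1 (p v).2 hne h1.2.2.1 h1.2.2.2.1 h1.2.2.2.2 h2.2.2.2.1 h2.2.2.2.2
  rw [Finset.card_product] at h2
  rw [pow_two]
  exact h2

open Classical in
theorem card_CC (H : SimpleGraph V) (lev : V → ℕ) (c : ℕ → ℕ)
    (hc0 : (Finset.univ.filter (fun v => lev v = 0)).card ≤ c 0)
    (hcs : ∀ a, c a + (Finset.univ.filter (fun v => lev v = a + 1)).card + c a ^ 2 ≤ c (a + 1))
    (hC4 : ∀ u v x y, u ≠ v → x ≠ y → H.Adj u x → H.Adj u y → H.Adj v x → H.Adj v y → False)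
    (a : ℕ) : (CC H lev a).card ≤ c a := by
  induction a with
  | zero =>
    have : CC H lev 0 = Finset.univ.filter (fun v => lev v = 0) := by
      ext v; rw [mem_CC_zero]; simp
    rw [this]; exact hc0
  | succ a ih =>
    have hsub : CC H lev (a + 1) ⊆
        (CC H lev a ∪ Finset.univ.filter (fun v => lev v = a + 1)) ∪ WW H lev a := by
      intro v hv
      rw [mem_CC_succ] at hv
      simp only [WW, Finset.mem_union, Finset.mem_filter, Finset.mem_univ, true_and]
      by_cases h : v ∈ CC H lev a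
      · exact Or.inl (Or.inl h)
      · rcases hv with hv | hv | hv
        · exact absurd hv h
        · exact Or.inl (Or.inr hv)
        · exact Or.inr ⟨h, hv⟩
    have h1 := Finset.card_le_card hsub
    have h2 := Finset.card_union_le
      (CC H lev a ∪ Finset.univ.filter (fun v => lev v = a + 1)) (WW H lev a)
    have h3 := Finset.card_union_le (CC H lev a) (Finset.univ.filter (fun v => lev v = a + 1))
    have h4 := card_WW H lev a hC4
    have h5 : (CC H lev a).card ^ 2 ≤ c a ^ 2 := Nat.pow_le_pow_left ih 2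
    have h6 := hcs a
    omega

open Classical in
theorem gen_coloring (G H : SimpleGraph V) (lev : V → ℕ) (c : ℕ → ℕ)
    (hc0 : (Finset.univ.filter (fun v => lev v = 0)).card ≤ c 0)
    (hcs : ∀ a, c a + (Finset.univ.filter (fun v => lev v = a + 1)).card + c a ^ 2 ≤ c (a + 1))
    (hlev : ∀ u v, G.Adj u v → lev u ≠ lev v)
    (hloc : ∀ a (S : Finset V), S.card ≤ c a ^ 2 → (∀ v ∈ S, a + 1 < lev v) →
      ∃ f : V → Bool, ∀ x ∈ S, ∀ y ∈ S, G.Adj x y → f x ≠ f y)
    (hC4 : ∀ u v x y, u ≠ v → x ≠ y → H.Adj u x → H.Adj u y → H.Adj v x → H.Adj v y → False)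
    (t : ℕ) : ∃ g : V → Fin 3, ∀ u v, gen H lev u = t → gen H lev v = t → G.Adj u v →
      g u ≠ g v := by
  rcases t with _ | a
  · refine ⟨fun _ => 0, ?_⟩
    intro u v hu hv huv
    exfalso
    apply hlev u v huv
    have h1 : u ∈ CC H lev 0 := (mem_CC_iff H lev u 0).2 hu.le
    have h2 : v ∈ CC H lev 0 := (mem_CC_iff H lev v 0).2 hv.le
    rw [mem_CC_zero] at h1 h2
    rw [h1, h2]
  · obtain ⟨f, hf⟩ := hloc a (Finset.univ.filter
      (fun v => gen H lev v = a + 1 ∧ lev v ≠ a + 1)) (by
        have h1 : (Finset.univ.filter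
            (fun v => gen H lev v = a + 1 ∧ lev v ≠ a + 1)) ⊆ WW H lev a := by
          intro v hv
          simp only [Finset.mem_filter, Finset.mem_univ, true_and] at hv
          obtain ⟨h1, h2⟩ := hv
          have h3 : v ∈ CC H lev (a + 1) := (mem_CC_iff H lev v _).2 h1.le
          have h4 : v ∉ CC H lev a := by
            rw [mem_CC_iff]; omega
          rw [mem_CC_succ] at h3
          simp only [WW, Finset.mem_filter, Finset.mem_univ, true_and]
          rcases h3 with h3 | h3 | h3
          · exact absurd h3 h4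
          · exact absurd h3 h2
          · exact ⟨h4, h3⟩
        have h2 := Finset.card_le_card h1
        have h3 := card_WW H lev a hC4
        have h4 := card_CC H lev c hc0 hcs hC4 a
        have h5 : (CC H lev a).card ^ 2 ≤ c a ^ 2 := Nat.pow_le_pow_left h4 2
        omega) (by
        intro v hv
        simp only [Finset.mem_filter, Finset.mem_univ, true_and] at hv
        have := gen_le_lev H lev v
        omega)
    refine ⟨fun v => if lev v = a + 1 then 2 else if f v then 1 else 0, ?_⟩
    intro u v hu hv huv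
    by_cases h1 : lev u = a + 1
    · by_cases h2 : lev v = a + 1
      · exact absurd (h1.trans h2.symm) (hlev u v huv)
      · simp only [h1, h2, if_true, if_false]
        split_ifs <;> decide
    · by_cases h2 : lev v = a + 1
      · simp only [h1, h2, if_true, if_false]
        split_ifs <;> decide
      · simp only [h1, h2, if_false]
        have := hf u (by simp [hu, h1]) v (by simp [hv, h2]) huv
        rcases hfu : f u <;> rcases hfv : f v <;> simp_all

theorem forest_coloring (H : SimpleGraph V) (lev : V → ℕ) (n : ℕ) :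
    ∃ f : V → Bool, ∀ u v, H.Adj v u → gen H lev u + 2 ≤ gen H lev v → gen H lev v ≤ n →
      f u ≠ f v := by
  classical
  induction n with
  | zero =>
    refine ⟨fun _ => false, ?_⟩
    intro u v _ h1 h2
    omega
  | succ n ih =>
    obtain ⟨f, hf⟩ := ih
    refine ⟨fun v => if gen H lev v = n + 1 then
      (if h : ∃ u, H.Adj v u ∧ gen H lev u + 2 ≤ gen H lev v then ! (f h.choose) else false)
      else f v, ?_⟩
    intro u v hvu hg hn
    by_cases hv : gen H lev v = n + 1
    · have hu : gen H lev u ≠ n + 1 := by omega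
      have hex : ∃ u, H.Adj v u ∧ gen H lev u + 2 ≤ gen H lev v := ⟨u, hvu, hg⟩
      have hch : hex.choose = u := gen_unique H lev hex.choose_spec.1 hvu hex.choose_spec.2 hg
      show (if gen H lev u = n + 1 then _ else _) ≠ (if gen H lev v = n + 1 then _ else _)
      rw [if_neg hu, if_pos hv, dif_pos hex, hch]
      cases f u <;> simp
    · have hu : gen H lev u ≠ n + 1 := by omega
      simp only [hu, if_false, hv]
      exact hf u v hvu hg (by omega)

open Classical in
theorem colorable_twelve (G H : SimpleGraph V) (hHG : H ≤ G) (lev : V → ℕ) (c : ℕ → ℕ)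
    (hc0 : (Finset.univ.filter (fun v => lev v = 0)).card ≤ c 0)
    (hcs : ∀ a, c a + (Finset.univ.filter (fun v => lev v = a + 1)).card + c a ^ 2 ≤ c (a + 1))
    (hlev : ∀ u v, G.Adj u v → lev u ≠ lev v)
    (hloc : ∀ a (S : Finset V), S.card ≤ c a ^ 2 → (∀ v ∈ S, a + 1 < lev v) →
      ∃ f : V → Bool, ∀ x ∈ S, ∀ y ∈ S, G.Adj x y → f x ≠ f y)
    (hC4 : ∀ u v x y, u ≠ v → x ≠ y → H.Adj u x → H.Adj u y → H.Adj v x → H.Adj v y → False) :
    H.Colorable 12 := by
  choose g hg using gen_coloring G H lev c hc0 hcs hlev hloc hC4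
  obtain ⟨f, hf⟩ := forest_coloring H lev (Finset.univ.sup (gen H lev))
  have hmax : ∀ v, gen H lev v ≤ Finset.univ.sup (gen H lev) := fun v =>
    Finset.le_sup (Finset.mem_univ v)
  have key : ∀ u v, H.Adj u v → gen H lev u ≤ gen H lev v →
      ((f u, (decide (gen H lev u % 2 = 0), g (gen H lev u) u)) : Bool × Bool × Fin 3) ≠
      (f v, (decide (gen H lev v % 2 = 0), g (gen H lev v) v)) := by
    intro u v huv hle heq
    simp only [Prod.mk.injEq] at heq
    obtain ⟨h1, h2, h3⟩ := heq
    rcases Nat.lt_or_ge (gen H lev u + 1) (gen H lev v) with h | h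
    · exact hf u v huv.symm (by omega) (hmax v) h1
    · rcases Nat.eq_or_lt_of_le hle with h' | h'
      · rw [h'] at h3
        exact hg (gen H lev v) u v h' rfl (hHG huv) h3
      · rw [decide_eq_decide] at h2
        omega
  have C : H.Coloring (Bool × Bool × Fin 3) := by
    refine Coloring.mk (fun v => (f v, (decide (gen H lev v % 2 = 0), g (gen H lev v) v))) ?_
    intro u v huv
    rcases le_total (gen H lev u) (gen H lev v) with h | h
    · exact key u v huv h
    · exact (key v u huv.symm h).symm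
  have := C.colorable
  simpa using this

end Pool.EH
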