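import Mathlib
import Pool.Agent.Work.MP_db704b_co_helper56.Shift
import Pool.Agent.Work.MP_db704b_co_helper56.Upper
import Pool.Agent.Work.MP_db704b_co_helper56.Lower

set_option autoImplicit false

namespace Pool.EH

open SimpleGraph

/-- Size of the local graph. -/
noncomputable def sz (M s : ℕ) : ℕ := (exists_local M s).choose

/-- The local graph: chromatic number larger than `M`, sets of size `≤ s` bipartite. -/
noncomputable def bg (M s : ℕ) : SimpleGraph (Fin (sz M s)) :=
  (exists_local M s).choose_spec.choose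

theorem bg_not (M s : ℕ) : ¬ (bg M s).Colorable M :=
  (exists_local M s).choose_spec.choose_spec.1

theorem bg_local (M s : ℕ) (S : Finset (Fin (sz M s))) (hS : S.card ≤ s) :
    ∃ c : Fin (sz M s) → Bool, ∀ x ∈ S, ∀ y ∈ S, (bg M s).Adj x y → c x ≠ c y :=
  (exists_local M s).choose_spec.choose_spec.2 S hS

theorem sz_nonempty (M s : ℕ) : Nonempty (Fin (sz M s)) := by
  by_contra h
  rw [not_nonempty_iff] at h
  apply bg_not M s
  exact ⟨Coloring.mk (fun x => h.elim x) (fun {x} => h.elim x)⟩

/-- Pairs (number of sequences of length `a`, bound for the closed set of index `a`). -/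
noncomputable def st (L : ℕ) : ℕ → ℕ × ℕ
  | 0 => (1, 1)
  | (a + 1) =>
    ((st L a).1 * sz (L ^ ((st L a).1 * (L + 1))) ((st L a).2 ^ 2),
      (st L a).2 + (st L a).1 * sz (L ^ ((st L a).1 * (L + 1))) ((st L a).2 ^ 2) +
        (st L a).2 ^ 2)

noncomputable def NN (L a : ℕ) : ℕ := sz (L ^ ((st L a).1 * (L + 1))) ((st L a).2 ^ 2)

noncomputable def BB (L a : ℕ) : SimpleGraph (Fin (NN L a)) :=
  bg (L ^ ((st L a).1 * (L + 1))) ((st L a).2 ^ 2)

theorem card_pi (L a : ℕ) : Fintype.card (∀ i : Fin a, Fin (NN L i.1)) = (st L a).1 := by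
  induction a with
  | zero => simp [st]
  | succ a ih =>
    rw [Fintype.card_pi] at ih ⊢
    rw [Fin.prod_univ_castSucc]
    simp only [Fintype.card_fin, Fin.val_castSucc, Fin.val_last] at ih ⊢
    rw [ih]
    rfl

theorem not_colorable_GG (L : ℕ) : ¬ (GG (NN L) (BB L) L).Colorable L := by
  apply not_colorable
  · intro a
    exact sz_nonempty _ _
  · intro a _ h
    apply bg_not (L ^ ((st L a).1 * (L + 1))) ((st L a).2 ^ 2)
    have h1 : Fintype.card ((∀ i : Fin a, Fin (NN L i.1)) × Fin (L + 1) → Fin L) =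
        L ^ ((st L a).1 * (L + 1)) := by
      rw [Fintype.card_fun, Fintype.card_prod, card_pi, Fintype.card_fin, Fintype.card_fin]
    rw [h1] at h
    exact h

open Classical in
theorem card_level (L a : ℕ) :
    (Finset.univ.filter (fun v : VV (NN L) L => v.1.1 = a)).card ≤ (st L a).1 := by
  by_cases ha : a < L + 1
  · have h1 : (Finset.univ.filter (fun v : VV (NN L) L => v.1.1 = a)) ⊆
        Finset.univ.image (fun p : (∀ i : Fin a, Fin (NN L i.1)) =>
          (⟨⟨a, ha⟩, p⟩ : VV (NN L) L)) := by
      rintro ⟨⟨b, hb⟩, p⟩ hv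
      simp only [Finset.mem_filter, Finset.mem_univ, true_and] at hv
      subst hv
      simp only [Finset.mem_image, Finset.mem_univ, true_and]
      exact ⟨p, rfl⟩
    have h2 := Finset.card_le_card h1
    have h3 := Finset.card_image_le (s := (Finset.univ : Finset (∀ i : Fin a, Fin (NN L i.1))))
      (f := fun p => (⟨⟨a, ha⟩, p⟩ : VV (NN L) L))
    rw [Finset.card_univ, card_pi] at h3
    exact h2.trans h3
  · have h1 : (Finset.univ.filter (fun v : VV (NN L) L => v.1.1 = a)) = ∅ := by
      rw [Finset.filter_eq_empty_iff]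
      intro v _ hv
      exact ha (hv ▸ v.1.2)
    rw [h1]
    simp

/-- Every subgraph of `GG` in which two distinct vertices have at most one common neighbour
is 12-colorable. -/
theorem colorable_GG (L : ℕ) (H : SimpleGraph (VV (NN L) L)) (hH : H ≤ GG (NN L) (BB L) L)
    (hC4 : ∀ u v x y, u ≠ v → x ≠ y → H.Adj u x → H.Adj u y → H.Adj v x → H.Adj v y → False) :
    H.Colorable 12 := by
  classical
  apply colorable_twelve (GG (NN L) (BB L) L) H hH (fun v => v.1.1) (fun a => (st L a).2)
  · exact (card_level L 0)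
  · intro a
    have := card_level L (a + 1)
    have h2 : (st L (a + 1)).2 = (st L a).2 + (st L (a + 1)).1 + (st L a).2 ^ 2 := rfl
    rw [h2]
    have h3 : (Finset.univ.filter (fun v : VV (NN L) L => v.1.1 = a + 1)).card ≤
      (st L (a + 1)).1 := by
      convert this
    omega
  · intro u v huv h
    exact huv.1 (Fin.ext h)
  · intro a S hS hlev
    have hne := sz_nonempty (L ^ ((st L a).1 * (L + 1))) ((st L a).2 ^ 2)
    let t0 : Fin (NN L a) := hne.some
    let π : VV (NN L) L → Fin (NN L a) := fun v => if h : a < v.1.1 then v.2 ⟨a, h⟩ else t0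
    obtain ⟨c, hc⟩ := bg_local (L ^ ((st L a).1 * (L + 1))) ((st L a).2 ^ 2) (S.image π)
      (Finset.card_image_le.trans hS)
    refine ⟨fun v => c (π v), ?_⟩
    intro x hx y hy hxy
    apply hc (π x) (Finset.mem_image_of_mem π hx) (π y) (Finset.mem_image_of_mem π hy)
    have h1 : a < x.1.1 := by have := hlev x hx; omega
    have h2 : a < y.1.1 := by have := hlev y hy; omega
    have h3 := hxy.2 a h1 h2
    simp only [π, dif_pos h1, dif_pos h2]
    exact h3
  · exact hC4

/-- In a graph of girth at least 5 two distinct vertices have at most one common neighbour. -/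
theorem no_C4_of_egirth {V : Type*} (H : SimpleGraph V) (h : (5 : ℕ∞) ≤ H.egirth) :
    ∀ u v x y, u ≠ v → x ≠ y → H.Adj u x → H.Adj u y → H.Adj v x → H.Adj v y → False := by
  intro u v x y huv hxy hux huy hvx hvy
  let w : H.Walk u u :=
    Walk.cons hux (Walk.cons hvx.symm (Walk.cons hvy (Walk.cons huy.symm Walk.nil)))
  have hw : w.IsCycle := by
    have h1 := hux.ne
    have h2 := huy.ne
    have h3 := hvx.ne
    have h4 := hvy.ne
    simp only [w, Walk.isCycle_def, Walk.isTrail_def, Walk.edges_cons, Walk.edges_nil,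
      Walk.support_cons, Walk.support_nil, List.tail_cons, List.nodup_cons, List.mem_cons,
      List.not_mem_nil, or_false, Sym2.eq_iff, ne_eq, not_or, List.nodup_nil, and_true,
      not_false_eq_true, reduceCtorEq]
    simp_all [eq_comm]
  have h1 := egirth_le_length hw
  have h2 : w.length = 4 := rfl
  rw [h2] at h1
  have h3 := h.trans h1
  have : (5 : ℕ) ≤ 4 := by exact_mod_cast h3
  omega

/-- The Erdős–Hajnal conjecture fails for girth 5. -/
theorem main (f : ℕ) : ∃ (V : Type) (_ : Fintype V) (G : SimpleGraph V),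
    (f : ℕ∞) ≤ G.chromaticNumber ∧
      ∀ H : SimpleGraph V, H ≤ G → (5 : ℕ∞) ≤ H.egirth → H.Colorable 12 := by
  refine ⟨VV (NN f) f, inferInstance, GG (NN f) (BB f) f, ?_, ?_⟩
  · rw [le_chromaticNumber_iff_colorable]
    intro m hm
    by_contra hlt
    have hlt' : m ≤ f := (not_le.1 hlt).le
    exact not_colorable_GG f (hm.mono hlt')
  · intro H hH hg
    exact colorable_GG f H hH (no_C4_of_egirth H hg)

end Pool.EH
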